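import Pool.Agent.H34.Main

set_option autoImplicit false

/-!
# Entropy minimality of transitive symmetric `q`-shifts

For every `M ≥ 1` and every `q ∈ (1, M + 1]`: if the symmetric `q`-shift `V_q` is transitive, then
every proper subshift of it has smaller topological entropy.
-/

open Filter Topology

namespace Pool.Agent.Results.MP_0ad9bc_an.EntropyMinimality

/-- Sequences of digits in `{0, ..., M}`. -/
abbrev Seq (M : ℕ) : Type := ℕ → Fin (M + 1)

/-- The left shift. -/
def shift {M : ℕ} (x : Seq M) : Seq M := fun i => x (i + 1)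

/-- The reflection: the digit `d` becomes `M - d`. -/
def reflection {M : ℕ} (x : Seq M) : Seq M := fun i => Fin.rev (x i)

/-- The lexicographic order `x ⪯ y`. -/
def LexLE {M : ℕ} (x y : Seq M) : Prop := x = y ∨ ∃ n, (∀ i < n, x i = y i) ∧ x n < y n

/-- `α` does not end in `0^∞` and `∑ α_i q^{-i} = 1` (here the indices start at `0`). -/
def IsInfiniteExpansion {M : ℕ} (q : ℝ) (α : Seq M) : Prop :=
  (∀ N, ∃ n ≥ N, α n ≠ 0) ∧ HasSum (fun i : ℕ => ((α i : ℕ) : ℝ) / q ^ (i + 1)) 1

/-- `α` is the quasi-greedy expansion of `1` in base `q`: the largest infinite expansion. -/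
def IsQuasiGreedy {M : ℕ} (q : ℝ) (α : Seq M) : Prop :=
  IsInfiniteExpansion q α ∧ ∀ β : Seq M, IsInfiniteExpansion q β → LexLE β α

/-- The symmetric shift: all `x` such that every `σ^n x` lies between the reflection of `α`
and `α`. -/
def V {M : ℕ} (α : Seq M) : Set (Seq M) :=
  {x | ∀ n : ℕ, LexLE (reflection α) (shift^[n] x) ∧ LexLE (shift^[n] x) α}

/-- The finite word `z` occurs in the sequence `x`. -/
def Occurs {M : ℕ} (z : List (Fin (M + 1))) (x : Seq M) : Prop :=
  ∃ k : ℕ, ∀ i : Fin z.length, z.get i = x (k + i)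

/-- The words that occur in points of `X`. -/
def Words {M : ℕ} (X : Set (Seq M)) : Set (List (Fin (M + 1))) := {z | ∃ x ∈ X, Occurs z x}

/-- Transitivity. -/
def IsTransitive {M : ℕ} (X : Set (Seq M)) : Prop :=
  ∀ u ∈ Words X, ∀ w ∈ Words X, ∃ v, u ++ v ++ w ∈ Words X

/-- Subshifts: nonempty, closed and shift-invariant sets. -/
def IsSubshift {M : ℕ} (X : Set (Seq M)) : Prop :=
  X.Nonempty ∧ IsClosed X ∧ ∀ x ∈ X, shift x ∈ X

/-- The topological entropy of `X` exists and equals `h`. -/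
def HasEntropy {M : ℕ} (X : Set (Seq M)) (h : ℝ) : Prop :=
  Tendsto (fun n : ℕ => Real.log (Set.ncard {z | z.length = n ∧ z ∈ Words X}) / n) atTop (𝓝 h)

/-- Entropy minimality: each proper subshift `X` of `Y` has smaller entropy. -/
def IsEntropyMinimal {M : ℕ} (Y : Set (Seq M)) : Prop :=
  ∀ X : Set (Seq M), IsSubshift X → X ⊂ Y → ∃ a b : ℝ, HasEntropy X a ∧ HasEntropy Y b ∧ a < b

section transfer

open Pool.Agent.H34.QS

variable {M : ℕ}

/-- the sequence of the values -/
def nat (x : Seq M) : ℕ → ℕ := fun n => (x n : ℕ)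

theorem nat_inj {x y : Seq M} (h : nat x = nat y) : x = y := by
  funext n
  exact Fin.ext (congrFun h n)

theorem shift_iter (x : Seq M) (n : ℕ) : shift^[n] x = fun i => x (n + i) := by
  induction n with
  | zero => funext i; simp
  | succ n ih =>
    rw [Function.iterate_succ_apply', ih]
    funext i
    show x (n + (i + 1)) = x (n + 1 + i)
    congr 1
    omega

theorem lexle_iff (x y : Seq M) : LexLE x y ↔ ∀ j, (∀ i < j, x i = y i) → x j ≤ y j := by
  constructor
  · rintro (rfl | ⟨n, h1, h2⟩) j hj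
    · exact le_rfl
    · rcases lt_trichotomy j n with h | h | h
      · exact (h1 j h).le
      · subst h; exact h2.le
      · exact absurd (hj n h) h2.ne
  · intro h
    by_cases hxy : x = y
    · exact Or.inl hxy
    · right
      classical
      have hex : ∃ n, x n ≠ y n := by
        by_contra hc
        push Not at hc
        exact hxy (funext hc)
      have h1 : ∀ i < Nat.find hex, x i = y i := by
        intro i hi
        by_contra hc
        exact Nat.find_min hex hi hc
      exact ⟨Nat.find hex, h1, lt_of_le_of_ne (h _ h1) (Nat.find_spec hex)⟩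

theorem mem_V (α x : Seq M) : x ∈ V α ↔ nat x ∈ VN M (nat α) := by
  have hrev : ∀ d : Fin (M + 1), ((Fin.rev d : Fin (M + 1)) : ℕ) = M - d := by
    intro d
    rw [Fin.val_rev]
    omega
  have e1 : ∀ a b : Fin (M + 1), a = b ↔ (a : ℕ) = b := fun a b => Fin.ext_iff
  constructor
  · intro hx
    refine ⟨fun n => Nat.lt_succ_iff.1 (x n).2, ?_, ?_⟩
    · intro n j hj
      have h1 := (lexle_iff _ _).1 (hx n).2 j
      rw [shift_iter] at h1
      exact h1 (fun i hi => Fin.ext (hj i hi))
    · intro n j hj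
      have h1 := (lexle_iff _ _).1 (hx n).1 j
      rw [shift_iter] at h1
      have h2 := h1 (fun i hi => Fin.ext (by
        show ((Fin.rev (α i) : Fin (M + 1)) : ℕ) = (x (n + i) : ℕ)
        rw [hrev]
        exact (hj i hi).symm))
      have h3 : ((Fin.rev (α j) : Fin (M + 1)) : ℕ) ≤ (x (n + j) : ℕ) := h2
      rw [hrev] at h3
      exact h3
  · rintro ⟨-, h1, h2⟩ n
    constructor
    · rw [lexle_iff, shift_iter]
      intro j hj
      have h3 := h2 n j (fun i hi => by
        have h4 := congrArg Fin.val (hj i hi)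
        have h5 : ((Fin.rev (α i) : Fin (M + 1)) : ℕ) = (x (n + i) : ℕ) := h4
        rw [hrev] at h5
        exact h5.symm)
      have h4 : ((Fin.rev (α j) : Fin (M + 1)) : ℕ) ≤ (x (n + j) : ℕ) := by
        rw [hrev]; exact h3
      exact h4
    · rw [lexle_iff, shift_iter]
      intro j hj
      exact h1 n j (fun i hi => congrArg Fin.val (hj i hi))

theorem image_V (α : Seq M) : VN M (nat α) = nat '' V α := by
  ext y
  constructor
  · intro hy
    refine ⟨fun n => ⟨y n, Nat.lt_succ_of_le (hy.1 n)⟩, ?_, rfl⟩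
    rw [mem_V]
    exact hy
  · rintro ⟨x, hx, rfl⟩
    exact (mem_V α x).1 hx

theorem image_words (X : Set (Seq M)) : LN (nat '' X) = List.map Fin.val '' Words X := by
  ext z
  constructor
  · rintro ⟨_, ⟨x, hx, rfl⟩, k, hk⟩
    refine ⟨(List.range z.length).map fun i => x (k + i), ⟨x, hx, k, ?_⟩, ?_⟩
    · intro i
      simp
    · conv_rhs => rw [hk]
      unfold seg
      rw [List.map_map]
      rfl
  · rintro ⟨u, ⟨x, hx, k, hk⟩, rfl⟩
    refine ⟨nat x, ⟨x, hx, rfl⟩, k, ?_⟩
    apply List.ext_getElem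
    · simp
    · intro i h1 h2
      rw [seg_get]
      have h3 : i < u.length := by simpa using h1
      have h4 := hk ⟨i, h3⟩
      rw [List.getElem_map]
      exact congrArg Fin.val h4

theorem count_eq (X : Set (Seq M)) (n : ℕ) :
    cntN (nat '' X) n = Set.ncard {z | z.length = n ∧ z ∈ Words X} := by
  unfold cntN
  rw [image_words]
  have h1 : {z | z.length = n ∧ z ∈ List.map (Fin.val : Fin (M + 1) → ℕ) '' Words X} =
      List.map (Fin.val : Fin (M + 1) → ℕ) '' {z | z.length = n ∧ z ∈ Words X} := by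
    ext z
    constructor
    · rintro ⟨h1, u, hu, rfl⟩
      exact ⟨u, ⟨by simpa using h1, hu⟩, rfl⟩
    · rintro ⟨u, ⟨h1, hu⟩, rfl⟩
      exact ⟨by simpa using h1, u, hu, rfl⟩
  rw [h1]
  exact Set.ncard_image_of_injective _ (List.map_injective_iff.2 Fin.val_injective)

theorem trans_V {X : Set (Seq M)} (h : IsTransitive X) : TransN (nat '' X) := by
  intro u hu w hw
  rw [image_words] at hu hw ⊢
  obtain ⟨u, hu, rfl⟩ := hu
  obtain ⟨w, hw, rfl⟩ := hw
  obtain ⟨v, hv⟩ := h u hu w hw
  exact ⟨v.map Fin.val, u ++ v ++ w, hv, by simp⟩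

/-- a point outside a closed set is separated from it by finitely many digits -/
theorem separate {X : Set (Seq M)} (hX : IsClosed X) {x : Seq M} (hx : x ∉ X) :
    ∃ n, ∀ y ∈ X, ∃ i < n, y i ≠ x i := by
  obtain ⟨I, u, h1, h2⟩ := isOpen_pi_iff.1 hX.isOpen_compl x hx
  refine ⟨I.sup id + 1, ?_⟩
  intro y hy
  by_contra hc
  push Not at hc
  refine h2 (a := y) ?_ hy
  intro i hi
  have h3 : i ≤ I.sup id := Finset.le_sup (f := id) hi
  rw [hc i (by omega)]
  exact (h1 i hi).2

/-- every transitive symmetric shift is entropy minimal -/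
theorem entropy_minimal (α : Seq M) (ht : IsTransitive (V α)) : IsEntropyMinimal (V α) := by
  intro X hX hXV
  obtain ⟨x₀, hx₀, hx₀X⟩ := Set.exists_of_ssubset hXV
  obtain ⟨n₀, hn₀⟩ := separate hX.2.1 hx₀X
  have h := mainN (M := M) (α := nat α) (X := nat '' X) (x₀ := nat x₀) (n₀ := n₀)
    (fun n => Nat.lt_succ_iff.1 (α n).2) (by rw [image_V]; exact trans_V ht)
    (by rw [image_V]; exact Set.image_mono hXV.1) (hX.1.image _)
    (by
      rintro _ ⟨x, hx, rfl⟩
      exact ⟨shift x, hX.2.2 x hx, rfl⟩)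
    ((mem_V α x₀).1 hx₀)
    (by
      rintro _ ⟨y, hy, rfl⟩
      obtain ⟨i, hi, hne⟩ := hn₀ y hy
      exact ⟨i, hi, fun hc => hne (Fin.ext hc)⟩)
  obtain ⟨a, b, h1, h2, h3⟩ := h
  rw [image_V] at h2
  simp_rw [count_eq] at h1 h2
  exact ⟨a, b, h1, h2, h3⟩

end transfer

section quasi

variable {M : ℕ}

/-- the next digit of the quasi-greedy algorithm -/
noncomputable def dig (M : ℕ) (q r : ℝ) : ℕ := min M (⌈q * r⌉₊ - 1)

/-- the remainders of the quasi-greedy algorithm -/
noncomputable def rem (M : ℕ) (q : ℝ) : ℕ → ℝ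
  | 0 => 1
  | n + 1 => q * rem M q n - dig M q (rem M q n)

/-- the output of the quasi-greedy algorithm -/
noncomputable def alg (M : ℕ) (q : ℝ) : Seq M :=
  fun n => ⟨dig M q (rem M q n), Nat.lt_succ_of_le (min_le_left _ _)⟩

theorem dig_lt {q r : ℝ} (h : 0 < q * r) : (dig M q r : ℝ) < q * r := by
  have h1 : 0 < ⌈q * r⌉₊ := Nat.ceil_pos.2 h
  have h2 : dig M q r < ⌈q * r⌉₊ := (min_le_right _ _).trans_lt (by omega)
  exact Nat.lt_ceil.1 h2

theorem rem_bounds (hM : 1 ≤ M) {q : ℝ} (h1 : 1 < q) (h2 : q ≤ M + 1) (n : ℕ) :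
    0 < rem M q n ∧ rem M q n ≤ M / (q - 1) := by
  have hq : 0 < q - 1 := by linarith
  have hM' : (1 : ℝ) ≤ M := by exact_mod_cast hM
  have h3 : 1 ≤ (M : ℝ) / (q - 1) := by
    rw [le_div_iff₀ hq]; linarith
  induction n with
  | zero => exact ⟨one_pos, h3⟩
  | succ n ih =>
    obtain ⟨a1, a2⟩ := ih
    have a3 : 0 < q * rem M q n := by positivity
    have a4 := dig_lt (M := M) a3
    show 0 < q * rem M q n - dig M q (rem M q n) ∧
      q * rem M q n - dig M q (rem M q n) ≤ M / (q - 1)
    refine ⟨by linarith, ?_⟩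
    by_cases hd : dig M q (rem M q n) = M
    · rw [hd]
      have h4 : q * rem M q n ≤ q * (M / (q - 1)) := by
        apply mul_le_mul_of_nonneg_left a2; linarith
      have h5 : q * (M / (q - 1)) - M = M / (q - 1) := by
        field_simp
        ring
      linarith
    · have h4 : dig M q (rem M q n) = ⌈q * rem M q n⌉₊ - 1 := by
        unfold dig at hd ⊢
        omega
      have h5 : q * rem M q n ≤ dig M q (rem M q n) + 1 := by
        rw [h4]
        have h6 : 0 < ⌈q * rem M q n⌉₊ := Nat.ceil_pos.2 a3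
        have h7 : ((⌈q * rem M q n⌉₊ - 1 : ℕ) : ℝ) + 1 = ⌈q * rem M q n⌉₊ := by
          have : ⌈q * rem M q n⌉₊ - 1 + 1 = ⌈q * rem M q n⌉₊ := by omega
          exact_mod_cast this
        rw [h7]
        exact Nat.le_ceil _
      linarith

theorem alg_sum {q : ℝ} (h1 : 1 < q) (n : ℕ) :
    ∑ i ∈ Finset.range n, ((alg M q i : ℕ) : ℝ) / q ^ (i + 1) = 1 - rem M q n / q ^ n := by
  have hq : q ≠ 0 := by linarith
  induction n with
  | zero => simp [rem]
  | succ n ih =>
    rw [Finset.sum_range_succ, ih]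
    show 1 - rem M q n / q ^ n + (dig M q (rem M q n) : ℝ) / q ^ (n + 1) =
      1 - (q * rem M q n - dig M q (rem M q n)) / q ^ (n + 1)
    field_simp
    ring

theorem alg_expansion (hM : 1 ≤ M) {q : ℝ} (h1 : 1 < q) (h2 : q ≤ M + 1) :
    IsInfiniteExpansion q (alg M q) := by
  have hq : 0 < q := by linarith
  have hsum : HasSum (fun i : ℕ => ((alg M q i : ℕ) : ℝ) / q ^ (i + 1)) 1 := by
    rw [hasSum_iff_tendsto_nat_of_nonneg (fun i => by positivity)]
    simp_rw [alg_sum h1]
    have h3 : Tendsto (fun n : ℕ => rem M q n / q ^ n) atTop (𝓝 0) := by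
      have h4 : Tendsto (fun n : ℕ => (M / (q - 1)) * (1 / q) ^ n) atTop (𝓝 ((M / (q - 1)) * 0)) := by
        apply Tendsto.const_mul
        apply tendsto_pow_atTop_nhds_zero_of_lt_one (by positivity)
        rw [div_lt_one hq]; exact h1
      rw [mul_zero] at h4
      apply squeeze_zero _ _ h4
      · intro n
        have := (rem_bounds hM h1 h2 n).1
        positivity
      · intro n
        rw [one_div, inv_pow, ← div_eq_mul_inv]
        have := (rem_bounds hM h1 h2 n).2
        gcongr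
    simpa using h3.const_sub 1
  refine ⟨?_, hsum⟩
  intro N
  by_contra hcon
  push Not at hcon
  have h3 : HasSum (fun i : ℕ => ((alg M q i : ℕ) : ℝ) / q ^ (i + 1))
      (∑ i ∈ Finset.range N, ((alg M q i : ℕ) : ℝ) / q ^ (i + 1)) := by
    apply hasSum_sum_of_ne_finset_zero
    intro n hn
    rw [Finset.mem_range, not_lt] at hn
    rw [hcon n hn]
    simp
  have h4 := h3.unique hsum
  rw [alg_sum h1] at h4
  have h5 := (rem_bounds hM h1 h2 N).1
  have h6 : 0 < rem M q N / q ^ N := by positivity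
  linarith

theorem alg_largest {q : ℝ} (h1 : 1 < q) {β : Seq M} (hβ : IsInfiniteExpansion q β) :
    LexLE β (alg M q) := by
  have hq : 0 < q := by linarith
  rw [lexle_iff]
  intro j hj
  obtain ⟨n, hn, hn0⟩ := hβ.1 (j + 1)
  have h2 := sum_le_hasSum (insert n (Finset.range (j + 1))) (fun i _ => by positivity) hβ.2
  rw [Finset.sum_insert (by rw [Finset.mem_range]; omega), Finset.sum_range_succ,
    Finset.sum_congr rfl (fun i hi => by rw [hj i (Finset.mem_range.1 hi)]), alg_sum h1] at h2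
  have h3 : 0 < ((β n : ℕ) : ℝ) / q ^ (n + 1) := by
    have : 0 < (β n : ℕ) := Nat.pos_of_ne_zero (fun hc => hn0 (Fin.ext hc))
    positivity
  have h4 : ((β j : ℕ) : ℝ) / q ^ (j + 1) < rem M q j / q ^ j := by linarith
  have h5 : ((β j : ℕ) : ℝ) < q * rem M q j := by
    rw [div_lt_div_iff₀ (by positivity) (by positivity), pow_succ] at h4
    have h6 : 0 < q ^ j := by positivity
    have h7 : ((β j : ℕ) : ℝ) * q ^ j < (q * rem M q j) * q ^ j := by linarith
    exact lt_of_mul_lt_mul_right h7 h6.le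
  have h6 : (β j : ℕ) < ⌈q * rem M q j⌉₊ := Nat.lt_ceil.2 h5
  have h7 : (β j : ℕ) ≤ M := Nat.lt_succ_iff.1 (β j).2
  show (β j : ℕ) ≤ min M (⌈q * rem M q j⌉₊ - 1)
  exact le_min h7 (by omega)

theorem lexle_antisymm {x y : Seq M} (h1 : LexLE x y) (h2 : LexLE y x) : x = y := by
  rw [lexle_iff] at h1 h2
  funext n
  induction n using Nat.strong_induction_on with
  | _ n ih => exact le_antisymm (h1 n ih) (h2 n (fun i hi => (ih i hi).symm))

end quasi

/-- **Main result.** Let `M ≥ 1` and `1 < q ≤ M + 1`. The quasi-greedy expansion `α(q)` of `1` in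
base `q` exists and is unique, and if the symmetric `q`-shift `V_q = V (α(q))` is transitive, then
it is entropy minimal. -/
theorem result (M : ℕ) (hM : 1 ≤ M) (q : ℝ) (h1 : 1 < q) (h2 : q ≤ M + 1) :
    ∃ α : Seq M, IsQuasiGreedy q α ∧ (∀ β : Seq M, IsQuasiGreedy q β → β = α) ∧
      (IsTransitive (V α) → IsEntropyMinimal (V α)) := by
  have h3 := alg_expansion hM h1 h2
  exact ⟨alg M q, ⟨h3, fun β hβ => alg_largest h1 hβ⟩,
    fun β hβ => lexle_antisymm (alg_largest h1 hβ.1) (hβ.2 _ h3), entropy_minimal _⟩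

end Pool.Agent.Results.MP_0ad9bc_an.EntropyMinimality
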